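import Pool.Agent.Lib.MP_d1d9c5_gt.BD.ALL

/-!
# A roughly transitive graph of bounded degree which is not roughly isometric to a homogeneous space
-/

set_option autoImplicit false

namespace Pool.Agent.Results.MP_d1d9c5_gt.BoundedDegree

open Pool.Agent.Lib.MP_d1d9c5_gt

universe u v w

/-- `f` is a `C`-rough isometry with respect to the distance functions `dX` and `dY`. -/
def IsRoughIsometry {X : Type u} {Y : Type v} (dX : X → X → ℝ) (dY : Y → Y → ℝ) (C : ℝ)
    (f : X → Y) : Prop :=
  (∀ x x', C⁻¹ * dY (f x) (f x') - C ≤ dX x x' ∧ dX x x' ≤ C * dY (f x) (f x') + C) ∧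
    ∀ y, ∃ x, dY (f x) y < C

/-- The path-length metric of a connected graph. -/
noncomputable def graphDist {V : Type u} (G : SimpleGraph V) (x y : V) : ℝ := (G.dist x y : ℝ)

/-- A graph is `C`-roughly transitive when any vertex is carried to any other one by a
`C`-rough isometry of the graph to itself. -/
def IsRoughlyTransitive {V : Type u} (G : SimpleGraph V) (C : ℝ) : Prop :=
  ∀ x y : V, ∃ f : V → V, IsRoughIsometry (graphDist G) (graphDist G) C f ∧ f x = y

/-- A metric space is homogeneous when its isometry group acts transitively on it. -/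
def IsHomogeneous (Y : Type u) [MetricSpace Y] : Prop := ∀ y y' : Y, ∃ e : Y ≃ᵢ Y, e y = y'

/-- There is a countable infinite connected graph of bounded degree which is roughly transitive,
but which is not roughly isometric to any homogeneous metric space. -/
theorem result : ∃ (V : Type) (G : SimpleGraph V), Countable V ∧ Infinite V ∧ G.Connected ∧
    (∃ d : ℕ, ∀ v, (G.neighborSet v).encard ≤ d) ∧
    (∃ C : ℝ, 0 < C ∧ IsRoughlyTransitive G C) ∧
    ∀ (Y : Type w) [MetricSpace Y], IsHomogeneous Y →
      ¬ ∃ (C : ℝ) (f : V → Y), 0 < C ∧ IsRoughIsometry (graphDist G) dist C f :=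
  BD.main

end Pool.Agent.Results.MP_d1d9c5_gt.BoundedDegree
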